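import Mathlib
import Pool.Agent.Run7.h810.DL.Res
import Pool.Agent.R389.RatMain2
import Pool.Agent.R389.RelBrauer

/-!
# L-functions of twists with additive local data
-/

set_option autoImplicit false
set_option linter.unusedSectionVars false

namespace Run7.h488.DT

open Pool.Agent.R389 Pool.Agent.H302R2 Pool.Agent.H302R3 Pool.Agent.H541R3.ART Pool.Agent.W446.AS
  Filter
open scoped Topology

section lfun

variable {G : Type}

/-- The L-function of `χ`: `T p n χ` is the trace of the `n`-th power of Frobenius at `p`. -/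
def IsL (T : Nat.Primes → ℕ+ → (G → ℂ) →+ ℂ) (b : ℝ) (χ : G → ℂ) (f : ℂ → ℂ) : Prop :=
  (∀ z, MeromorphicAt f z) ∧
    ∀ s : ℂ, b < s.re → ∃ l, HasSum (fun x : Nat.Primes × ℕ+ =>
      T x.1 x.2 χ / ((x.2 : ℕ) * ((x.1 : ℕ) : ℂ) ^ (((x.2 : ℕ) : ℂ) * s))) l ∧ f s = Complex.exp l

variable {T : Nat.Primes → ℕ+ → (G → ℂ) →+ ℂ} {b : ℝ}

lemma IsL.zero : IsL T b (0 : G → ℂ) 1 := by
  refine ⟨fun z => MeromorphicAt.const 1 z, fun s _ => ⟨0, ?_, by rw [Complex.exp_zero]; rfl⟩⟩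
  simp only [map_zero, zero_div]
  exact hasSum_zero

lemma IsL.add {χ χ' : G → ℂ} {f f' : ℂ → ℂ} (h : IsL T b χ f) (h' : IsL T b χ' f') :
    IsL T b (χ + χ') (f * f') := by
  refine ⟨fun z => (h.1 z).mul (h'.1 z), fun s hs => ?_⟩
  obtain ⟨l, hl, e⟩ := h.2 s hs
  obtain ⟨l', hl', e'⟩ := h'.2 s hs
  refine ⟨l + l', ?_, by rw [Pi.mul_apply, e, e', Complex.exp_add]⟩
  refine (hl.add hl').congr_fun ?_
  intro x
  rw [map_add, add_div]

lemma IsL.neg {χ : G → ℂ} {f : ℂ → ℂ} (h : IsL T b χ f) : IsL T b (-χ) f⁻¹ := by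
  refine ⟨fun z => (h.1 z).inv, fun s hs => ?_⟩
  obtain ⟨l, hl, e⟩ := h.2 s hs
  refine ⟨-l, ?_, by rw [Pi.inv_apply, e, Complex.exp_neg]⟩
  refine hl.neg.congr_fun ?_
  intro x
  rw [map_neg, neg_div]

lemma IsL.pow {χ : G → ℂ} {f : ℂ → ℂ} (h : IsL T b χ f) (k : ℕ) :
    IsL T b (k • χ) (fun s => f s ^ k) := by
  induction k with
  | zero =>
    have h0 := IsL.zero (T := T) (b := b) (G := G)
    rw [zero_nsmul]
    simp only [pow_zero]
    exact h0
  | succ k ih =>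
    rw [succ_nsmul]
    have := ih.add h
    refine ⟨fun z => (this.1 z).congr (Eventually.of_forall fun s => ?_), fun s hs => ?_⟩
    · change f s ^ k * f s = f s ^ (k + 1)
      rw [pow_succ]
    · obtain ⟨l, hl, e⟩ := this.2 s hs
      exact ⟨l, hl, by rw [← e]; exact pow_succ _ _⟩

lemma IsL.prod {ι : Type*} (S : Finset ι) {χ : ι → G → ℂ} {f : ι → ℂ → ℂ}
    (h : ∀ i ∈ S, IsL T b (χ i) (f i)) : IsL T b (∑ i ∈ S, χ i) (fun s => ∏ i ∈ S, f i s) := by
  classical
  induction S using Finset.induction_on with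
  | empty =>
    have h0 := IsL.zero (T := T) (b := b) (G := G)
    simp only [Finset.sum_empty, Finset.prod_empty]
    exact h0
  | insert a S ha ih =>
    rw [Finset.sum_insert ha]
    have := (h a (Finset.mem_insert_self a S)).add
      (ih fun i hi => h i (Finset.mem_insert_of_mem hi))
    refine ⟨fun z => (this.1 z).congr (Eventually.of_forall fun s => ?_), fun s hs => ?_⟩
    · change f a s * ∏ i ∈ S, f i s = ∏ i ∈ insert a S, f i s
      rw [Finset.prod_insert ha]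
    · obtain ⟨l, hl, e⟩ := this.2 s hs
      refine ⟨l, hl, ?_⟩
      rw [← e]
      change ∏ i ∈ insert a S, f i s = f a s * ∏ i ∈ S, f i s
      rw [Finset.prod_insert ha]

lemma re_ev (b : ℝ) : ∀ᶠ s in 𝓝[≠] (((b + 1 : ℝ)) : ℂ), b < s.re :=
  Pool.Agent.Run7.h810.DL.re_ev b

lemma IsL.ne_top {χ : G → ℂ} {f : ℂ → ℂ} (h : IsL T b χ f) (m : ℂ) :
    meromorphicOrderAt f m ≠ ⊤ := by
  have hm : MeromorphicOn f Set.univ := fun z _ => h.1 z
  refine hm.meromorphicOrderAt_ne_top_of_isPreconnected isPreconnected_univ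
    (Set.mem_univ ((b + 1 : ℝ) : ℂ)) (Set.mem_univ m) ?_
  intro h1
  rw [meromorphicOrderAt_eq_top_iff] at h1
  obtain ⟨s, hs1, hs2⟩ := (h1.and (re_ev b)).exists
  obtain ⟨l, -, e⟩ := h.2 s hs2
  rw [e] at hs1
  exact Complex.exp_ne_zero l hs1

lemma IsL.unique {χ : G → ℂ} {f f' : ℂ → ℂ} (h : IsL T b χ f) (h' : IsL T b χ f') (m : ℂ) :
    f =ᶠ[𝓝[≠] m] f' := by
  have hm : MeromorphicOn (f - f') Set.univ := fun z _ => (h.1 z).sub (h'.1 z)
  have h0 : meromorphicOrderAt (f - f') m = ⊤ := by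
    by_contra hcon
    refine hm.meromorphicOrderAt_ne_top_of_isPreconnected isPreconnected_univ
      (Set.mem_univ m) (Set.mem_univ ((b + 1 : ℝ) : ℂ)) hcon ?_
    rw [meromorphicOrderAt_eq_top_iff]
    filter_upwards [re_ev b] with s hs
    obtain ⟨l, hl, e⟩ := h.2 s hs
    obtain ⟨l', hl', e'⟩ := h'.2 s hs
    rw [Pi.sub_apply, e, e', hl.unique hl', sub_self]
  rw [meromorphicOrderAt_eq_top_iff] at h0
  filter_upwards [h0] with s hs
  exact sub_eq_zero.mp hs

end lfun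

section brauer

variable {G : Type} [Group G] [Finite G]

/-- **Brauer's induction theorem** for virtual characters -/
theorem virt_mono {f : G → ℂ} (hf : Virt f) :
    f ∈ AddSubgroup.closure {F : G → ℂ | ∃ (U : Subgroup G) (ψ : U →* ℂˣ),
      F = ind U (fun h => ((ψ h : ℂˣ) : ℂ))} := by
  classical
  have : Fintype G := Fintype.ofFinite G
  set S := AddSubgroup.closure {F : G → ℂ | ∃ (U : Subgroup G) (ψ : U →* ℂˣ),
      F = ind U (fun h => ((ψ h : ℂˣ) : ℂ))} with hS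
  have hone : (fun _ => 1 : G → ℂ) ∈ S := by
    refine (AddSubgroup.closure_mono ?_) (one_mem_pn (U := G))
    rintro F ⟨V, ψ, -, rfl⟩
    exact ⟨V, ψ, rfl⟩
  have h1 : (fun _ => 1 : G → ℂ) ∈ Irr G := by
    have := lin_irr (1 : G →* ℂˣ)
    convert this using 1
    funext g
    simp
  obtain ⟨k, hk⟩ : ∃ k : ℤ, pr f (fun _ => 1) = k := ⟨_, mult_spec hf h1⟩
  have h2 : inv (⊤ : Subgroup G) (f - k • (fun _ => 1 : G → ℂ)) = 0 := by
    funext g
    have hc : (Nat.card G : ℂ) ≠ 0 := card_ne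
    have : Fintype (⊤ : Subgroup G) := Fintype.ofFinite _
    have e1 : ∀ F : G → ℂ, inv (⊤ : Subgroup G) F g = (Nat.card G : ℂ)⁻¹ * ∑ x : G, F x := by
      intro F
      rw [inv_eq]
      congr 1
      · simp
      · rw [← Equiv.sum_comp (Equiv.mulLeft g) F,
          ← Equiv.sum_comp (Subgroup.topEquiv (G := G)).toEquiv (fun x => F ((Equiv.mulLeft g) x))]
        rfl
    rw [e1]
    rw [pr, finsum_eq_sum_of_fintype] at hk
    simp only [mul_one] at hk
    simp only [Pi.sub_apply, Pi.smul_apply, Finset.sum_sub_distrib, Finset.sum_const,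
      Finset.card_univ, mul_sub, hk, Pi.zero_apply]
    rw [← Nat.card_eq_fintype_card]
    simp only [zsmul_eq_mul, nsmul_eq_mul, mul_one]
    rw [← mul_assoc, mul_comm (Nat.card G : ℂ)⁻¹, mul_assoc] 
    field_simp
    ring
  have h3 := relative_brauer (⊤ : Subgroup G)
    (f := f - k • (fun _ => 1 : G → ℂ))
    (sub_mem hf (zsmul_mem (AddSubgroup.subset_closure h1) k)) h2
  have h4 : f - k • (fun _ => 1 : G → ℂ) ∈ S := by
    refine (AddSubgroup.closure_mono ?_) h3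
    rintro F ⟨V, ψ, -, -, rfl⟩
    exact ⟨V, ψ, rfl⟩
  have h5 := add_mem h4 (zsmul_mem hone k)
  rwa [sub_add_cancel] at h5

end brauer

end Run7.h488.DT
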