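import Mathlib
import Pool.Agent.Run7.h488.DT.LF

/-!
# Periods of the twists
-/

set_option autoImplicit false
set_option linter.unusedSectionVars false

namespace Run7.h488.DT

open Pool.Agent.R389 Pool.Agent.H302R2 Pool.Agent.H302R3 Pool.Agent.H541R3.ART Pool.Agent.W446.AS
  Filter
open Pool.Agent.K4H74.ST (IsChar)
open Pool.Agent.Run7.h810.DL (mat_det mat_det_add)
open scoped Topology

section res

variable {G : Type} [Group G] [Finite G]

/-- the resolvent `∑ w(g) ρ(g)` -/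
noncomputable def rs (w : G → ℂ) {n : ℕ} (ρ : G →* Matrix (Fin n) (Fin n) ℂ) :
    Matrix (Fin n) (Fin n) ℂ := ∑ᶠ g, w g • ρ g

/-- convolution -/
noncomputable def cv (u w : G → ℂ) (g : G) : ℂ := ∑ᶠ h, u h * w (h⁻¹ * g)

open Classical in
/-- powers -/
noncomputable def cp (w : G → ℂ) : ℕ → G → ℂ
  | 0 => Pi.single 1 1
  | k + 1 => cv (cp w k) w

lemma rs_mul (u w : G → ℂ) {n : ℕ} (ρ : G →* Matrix (Fin n) (Fin n) ℂ) :
    rs u ρ * rs w ρ = rs (cv u w) ρ := by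
  classical
  have : Fintype G := Fintype.ofFinite G
  simp only [rs, cv, finsum_eq_sum_of_fintype]
  rw [Finset.sum_mul_sum]
  have h2 : ∀ g : G, ∑ h : G, (u g • ρ g) * (w h • ρ h)
      = ∑ k : G, (u g * w (g⁻¹ * k)) • ρ k := by
    intro g
    rw [← Equiv.sum_comp (Equiv.mulLeft g) (fun k => (u g * w (g⁻¹ * k)) • ρ k)]
    refine Finset.sum_congr rfl fun h _ => ?_
    change _ = (u g * w (g⁻¹ * (g * h))) • ρ (g * h)
    rw [inv_mul_cancel_left, Matrix.smul_mul, Matrix.mul_smul, smul_smul, map_mul]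
  rw [Finset.sum_congr rfl (fun g _ => h2 g), Finset.sum_comm]
  refine Finset.sum_congr rfl fun k _ => ?_
  rw [← Finset.sum_smul]

lemma rs_pow (w : G → ℂ) {n : ℕ} (ρ : G →* Matrix (Fin n) (Fin n) ℂ) (k : ℕ) :
    (rs w ρ) ^ k = rs (cp w k) ρ := by
  classical
  have : Fintype G := Fintype.ofFinite G
  induction k with
  | zero =>
    rw [pow_zero, cp, rs, finsum_eq_sum_of_fintype, Finset.sum_eq_single 1]
    · rw [Pi.single_eq_same, one_smul, map_one]
    · intro k _ hk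
      rw [Pi.single_eq_of_ne hk, zero_smul]
    · intro h
      exact absurd (Finset.mem_univ _) h
  | succ k ih => rw [pow_succ, ih, rs_mul]; rfl

lemma tr_pow (w : G → ℂ) {n : ℕ} (ρ : G →* Matrix (Fin n) (Fin n) ℂ) (k : ℕ) :
    ((rs w ρ) ^ k).trace = ∑ᶠ g, cp w k g * (ρ g).trace := by
  classical
  have : Fintype G := Fintype.ofFinite G
  rw [rs_pow, rs, finsum_eq_sum_of_fintype, finsum_eq_sum_of_fintype, Matrix.trace_sum]
  refine Finset.sum_congr rfl fun g _ => ?_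
  rw [Matrix.trace_smul, smul_eq_mul]

lemma det_rs_congr (w : G → ℂ) {n n' : ℕ} (ρ : G →* Matrix (Fin n) (Fin n) ℂ)
    (ρ' : G →* Matrix (Fin n') (Fin n') ℂ) (h : ∀ g, (ρ g).trace = (ρ' g).trace) :
    (rs w ρ).det = (rs w ρ').det := by
  refine (mat_det _ _ fun k => ?_).symm
  rw [tr_pow, tr_pow]
  exact finsum_congr fun g => by rw [h]

lemma det_rs_add (w : G → ℂ) {n n₁ n₂ : ℕ} (ρ : G →* Matrix (Fin n) (Fin n) ℂ)
    (ρ₁ : G →* Matrix (Fin n₁) (Fin n₁) ℂ) (ρ₂ : G →* Matrix (Fin n₂) (Fin n₂) ℂ)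
    (h : ∀ g, (ρ g).trace = (ρ₁ g).trace + (ρ₂ g).trace) :
    (rs w ρ).det = (rs w ρ₁).det * (rs w ρ₂).det := by
  refine mat_det_add _ _ _ fun k => ?_
  have : Fintype G := Fintype.ofFinite G
  rw [tr_pow, tr_pow, tr_pow, finsum_eq_sum_of_fintype, finsum_eq_sum_of_fintype,
    finsum_eq_sum_of_fintype, ← Finset.sum_add_distrib]
  exact Finset.sum_congr rfl fun g _ => by rw [h, mul_add]

end res

section char

variable {G : Type} [Group G] [Finite G]

lemma isChar_rep {χ : G → ℂ} (h : IsChar χ) :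
    ∃ (n : ℕ) (ρ : G →* Matrix (Fin n) (Fin n) ℂ), ∀ g, (ρ g).trace = χ g := by
  obtain ⟨V, _, _, _, ρ, rfl⟩ := h
  let b := Module.finBasis ℂ V
  refine ⟨_, { toFun := fun g => LinearMap.toMatrix b b (ρ g)
               map_one' := by rw [map_one]; exact LinearMap.toMatrix_one b
               map_mul' := fun x y => by rw [map_mul]; exact LinearMap.toMatrix_mul b _ _ },
    fun g => ?_⟩
  exact (LinearMap.trace_eq_matrix_trace ℂ b _).symm

lemma rep_isChar {n : ℕ} (ρ : G →* Matrix (Fin n) (Fin n) ℂ) : IsChar (fun g => (ρ g).trace) := by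
  let ρ' : Representation ℂ G (Fin n → ℂ) :=
    { toFun := fun g => Matrix.toLin' (ρ g)
      map_one' := by rw [map_one, Matrix.toLin'_one]; rfl
      map_mul' := fun a b => by rw [map_mul, Matrix.toLin'_mul]; rfl }
  refine ⟨Fin n → ℂ, inferInstance, inferInstance, inferInstance, ρ', funext fun g => ?_⟩
  exact (Matrix.trace_toLin'_eq _).symm

lemma isChar_comp {H : Type} [Group H] {χ : G → ℂ} (h : IsChar χ) (f : H →* G) :
    IsChar (fun x => χ (f x)) := by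
  obtain ⟨V, _, _, _, ρ, rfl⟩ := h
  exact ⟨V, inferInstance, inferInstance, inferInstance, ρ.comp f, rfl⟩

/-- the multiplicities of the eigenvalues of an involution, commutative groups -/
lemma mult_comm {G : Type} [Group G] [Finite G] (hc : ∀ a b : G, a * b = b * a) {χ : G → ℂ}
    (hχ : IsChar χ) {c : G} (h2 : c * c = 1) :
    ∃ a d : ℕ, χ 1 = a + d ∧ χ c = a - d := by
  have h := Pool.Agent.K4H74.SC.IsChar.mem hχ
  induction h using AddSubmonoid.closure_induction with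
  | mem χ hχ' =>
    obtain ⟨ψ, rfl⟩ := Pool.Agent.Run7.h810.DL.irr_comm hc hχ'
    have h3 : ((ψ c : ℂˣ) : ℂ) * ((ψ c : ℂˣ) : ℂ) = 1 := by
      rw [← Units.val_mul, ← map_mul, h2, map_one, Units.val_one]
    rcases mul_self_eq_one_iff.mp h3 with h4 | h4
    · exact ⟨1, 0, by simp [Pool.Agent.K4H74.ST.lc], by simp [Pool.Agent.K4H74.ST.lc, h4]⟩
    · exact ⟨0, 1, by simp [Pool.Agent.K4H74.ST.lc], by simp [Pool.Agent.K4H74.ST.lc, h4]⟩
  | zero => exact ⟨0, 0, by simp, by simp⟩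
  | add x y hx hy ihx ihy =>
    obtain ⟨a, d, h1, h3⟩ := ihx (Pool.Agent.K4H74.SC.isChar_of_mem hx)
    obtain ⟨a', d', h1', h3'⟩ := ihy (Pool.Agent.K4H74.SC.isChar_of_mem hy)
    refine ⟨a + a', d + d', ?_, ?_⟩
    · rw [Pi.add_apply, h1, h1']
      push_cast
      ring
    · rw [Pi.add_apply, h3, h3']
      push_cast
      ring

/-- the multiplicities of the eigenvalues of an involution -/
lemma mult {χ : G → ℂ} (hχ : IsChar χ) {c : G} (h2 : c * c = 1) :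
    ∃ a d : ℕ, χ 1 = a + d ∧ χ c = a - d := by
  have hc : ∀ a b : Subgroup.zpowers c, a * b = b * a := by
    rintro ⟨_, i, rfl⟩ ⟨_, j, rfl⟩
    apply Subtype.ext
    change c ^ i * c ^ j = c ^ j * c ^ i
    rw [← zpow_add, ← zpow_add, add_comm]
  have h3 := isChar_comp hχ (Subgroup.zpowers c).subtype
  exact mult_comm hc h3 (c := ⟨c, Subgroup.mem_zpowers c⟩) (Subtype.ext h2)

/-- `Ω` is the period `det (∑ w(g) ρ(g))^r P^a Q^d` of `M ⊗ ρ`, where `ρ(c)` has the eigenvalue `1`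
with multiplicity `a` and the eigenvalue `-1` with multiplicity `d`. -/
def IsPer (w : G → ℂ) (c : G) (r : ℕ) (P Q : ℂ) (χ : G → ℂ) (Ω : ℂ) : Prop :=
  ∃ (n : ℕ) (ρ : G →* Matrix (Fin n) (Fin n) ℂ) (a d : ℕ), (∀ g, (ρ g).trace = χ g) ∧
    a + d = n ∧ χ c = a - d ∧ Ω = (rs w ρ).det ^ r * P ^ a * Q ^ d

variable {w : G → ℂ} {c : G} {r : ℕ} {P Q : ℂ}

lemma IsPer.unique {χ : G → ℂ} {Ω Ω' : ℂ} (h : IsPer w c r P Q χ Ω) (h' : IsPer w c r P Q χ Ω') :
    Ω = Ω' := by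
  obtain ⟨n, ρ, a, d, h1, h2, h3, rfl⟩ := h
  obtain ⟨n', ρ', a', d', h1', h2', h3', rfl⟩ := h'
  have e1 : (n : ℂ) = n' := by
    have e2 := h1 1
    have e3 := h1' 1
    rw [map_one, Matrix.trace_one, Fintype.card_fin] at e2 e3
    rw [e2, e3]
  have e4 : n = n' := by exact_mod_cast e1
  have e5 : (a : ℂ) - d = a' - d' := by rw [← h3, ← h3']
  have e6 : (a : ℤ) - d = a' - d' := by exact_mod_cast e5
  have e7 : a = a' := by omega
  have e8 : d = d' := by omega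
  rw [det_rs_congr w ρ ρ' fun g => by rw [h1, h1'], e7, e8]

lemma IsPer.zero : IsPer w c r P Q (0 : G → ℂ) 1 := by
  refine ⟨0, 1, 0, 0, fun g => by simp [Matrix.trace], rfl, by simp, by simp⟩

lemma IsPer.add {χ χ' : G → ℂ} {Ω Ω' : ℂ} (h : IsPer w c r P Q χ Ω)
    (h' : IsPer w c r P Q χ' Ω') : IsPer w c r P Q (χ + χ') (Ω * Ω') := by
  obtain ⟨n, ρ, a, d, h1, h2, h3, rfl⟩ := h
  obtain ⟨n', ρ', a', d', h1', h2', h3', rfl⟩ := h'
  obtain ⟨k, σ, hσ⟩ := isChar_rep ((rep_isChar ρ).add (rep_isChar ρ'))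
  have hk : k = n + n' := by
    have e := hσ 1
    rw [map_one, Matrix.trace_one, Fintype.card_fin, Pi.add_apply, map_one, map_one,
      Matrix.trace_one, Matrix.trace_one, Fintype.card_fin, Fintype.card_fin] at e
    exact_mod_cast e
  refine ⟨k, σ, a + a', d + d', fun g => ?_, by omega, ?_, ?_⟩
  · rw [hσ, Pi.add_apply, Pi.add_apply, h1, h1']
  · rw [Pi.add_apply, h3, h3']
    push_cast
    ring
  · rw [det_rs_add w σ ρ ρ' fun g => by rw [hσ, Pi.add_apply], mul_pow, pow_add, pow_add]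
    ring

lemma IsPer.pow {χ : G → ℂ} {Ω : ℂ} (h : IsPer w c r P Q χ Ω) (k : ℕ) :
    IsPer w c r P Q (k • χ) (Ω ^ k) := by
  induction k with
  | zero => rw [zero_nsmul, pow_zero]; exact IsPer.zero
  | succ k ih => rw [succ_nsmul, pow_succ]; exact ih.add h

lemma IsPer.prod {ι : Type*} (S : Finset ι) {χ : ι → G → ℂ} {Ω : ι → ℂ}
    (h : ∀ i ∈ S, IsPer w c r P Q (χ i) (Ω i)) :
    IsPer w c r P Q (∑ i ∈ S, χ i) (∏ i ∈ S, Ω i) := by
  classical
  induction S using Finset.induction_on with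
  | empty => exact IsPer.zero
  | insert a S ha ih =>
    rw [Finset.sum_insert ha, Finset.prod_insert ha]
    exact (h a (Finset.mem_insert_self a S)).add
      (ih fun i hi => h i (Finset.mem_insert_of_mem hi))

lemma IsPer.exist {χ : G → ℂ} (hχ : IsChar χ) (h2 : c * c = 1) : ∃ Ω, IsPer w c r P Q χ Ω := by
  obtain ⟨n, ρ, h⟩ := isChar_rep hχ
  obtain ⟨a, d, h3, h4⟩ := mult hχ h2
  refine ⟨_, n, ρ, a, d, h, ?_, h4, rfl⟩
  have e := h 1
  rw [map_one, Matrix.trace_one, Fintype.card_fin, h3] at e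
  exact_mod_cast e.symm

lemma IsPer.ne (hP : P ≠ 0) (hQ : Q ≠ 0)
    (hw : ∀ (n : ℕ) (ρ : G →* Matrix (Fin n) (Fin n) ℂ), (rs w ρ).det ≠ 0) {χ : G → ℂ} {Ω : ℂ}
    (h : IsPer w c r P Q χ Ω) : Ω ≠ 0 := by
  obtain ⟨n, ρ, a, d, -, -, -, rfl⟩ := h
  exact mul_ne_zero (mul_ne_zero (pow_ne_zero _ (hw n ρ)) (pow_ne_zero _ hP)) (pow_ne_zero _ hQ)

end char

end Run7.h488.DT
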