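import Mathlib
import Pool.Agent.Run7.h488.DT.Per

/-!
# Deligne's conjecture for the rational twists, concrete form
-/

set_option autoImplicit false
set_option linter.unusedSectionVars false

namespace Run7.h488.DT

open Pool.Agent.R389 Pool.Agent.H302R2 Pool.Agent.H302R3 Pool.Agent.H541R3.ART Pool.Agent.W446.AS
  Filter
open Pool.Agent.K4H74.ST (IsChar)
open scoped Topology

variable {G : Type} [Group G] [Finite G] {E : Type} [Field E]
  {T : Nat.Primes → ℕ+ → (G → ℂ) →+ ℂ} {b : ℝ} {m : ℂ}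
  {w : G → ℂ} {c : G} {r : ℕ} {P Q : ℂ}

/-- **Deligne's conjecture** at `m` for the twist by the `E`-valued character `F`. -/
def Del (T : Nat.Primes → ℕ+ → (G → ℂ) →+ ℂ) (b : ℝ) (m : ℂ) (w : G → ℂ) (c : G) (r : ℕ) (P Q : ℂ)
    (F : G → E) : Prop :=
  ∃ e : E, ∀ (τ : E →+* ℂ) (f : ℂ → ℂ) (Ω : ℂ), IsL T b (fun g => τ (F g)) f →
    IsPer w c r P Q (fun g => τ (F g)) Ω → Tendsto f (𝓝[≠] m) (𝓝 (τ e * Ω))

/-- L-functions of all virtual characters -/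
lemma exists_L {ζ : E} (hζ : IsPrimitiveRoot ζ (Monoid.exponent G)) (τ₀ : E →+* ℂ)
    (hcon : ∀ (U : Subgroup G) (ψ : U →* Eˣ) (τ : E →+* ℂ),
      ∃ f, IsL T b (fun g => τ (ind U (fun u => ((ψ u : Eˣ) : E)) g)) f) {χ : G → ℂ}
    (hχ : Virt χ) : ∃ f, IsL T b χ f := by
  have h := virt_mono hχ
  clear hχ
  induction h using AddSubgroup.closure_induction with
  | mem F hF =>
    obtain ⟨U, ψ, rfl⟩ := hF
    obtain ⟨ψE, hψ⟩ := lift_char hζ τ₀ U ψ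
    obtain ⟨f, hf⟩ := hcon U ψE τ₀
    refine ⟨f, ?_⟩
    convert hf using 1
    funext g
    rw [ind_map τ₀ U]
    congr 1
    funext u
    exact (hψ u).symm
  | zero => exact ⟨1, IsL.zero⟩
  | add x y hx hy ihx ihy =>
    obtain ⟨f, hf⟩ := ihx
    obtain ⟨f', hf'⟩ := ihy
    exact ⟨_, hf.add hf'⟩
  | neg x hx ih =>
    obtain ⟨f, hf⟩ := ih
    exact ⟨_, hf.neg⟩

lemma irr_isChar {χ : G → ℂ} (hχ : χ ∈ Irr G) : IsChar χ := by
  obtain ⟨n, ρ, -, rfl⟩ := hχ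
  exact ⟨Fin n → ℂ, inferInstance, inferInstance, inferInstance, ρ, rfl⟩

lemma decomp_sum {f : G → ℂ} {mm : (G → ℂ) → ℕ} (h : IsDecomp f mm) :
    f = ∑ χ ∈ irrF G, mm χ • χ := by
  classical
  funext g
  rw [h g, finsum_irr (fun χ => (mm χ : ℂ) * χ g), Finset.sum_apply]
  exact Finset.sum_congr rfl fun χ _ => by simp

theorem main [NumberField E] {ζ : E} (hζ : IsPrimitiveRoot ζ (Monoid.exponent G))
    (hP : P ≠ 0) (hQ : Q ≠ 0) (hc : c * c = 1)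
    (hw : ∀ (n : ℕ) (ρ : G →* Matrix (Fin n) (Fin n) ℂ), (rs w ρ).det ≠ 0)
    (hcon : ∀ (U : Subgroup G) (ψ : U →* Eˣ) (τ : E →+* ℂ),
      ∃ f, IsL T b (fun g => τ (ind U (fun u => ((ψ u : Eˣ) : E)) g)) f)
    (hdel : ∀ (U : Subgroup G) (ψ : U →* Eˣ),
      Del T b m w c r P Q (ind U (fun u => ((ψ u : Eˣ) : E))))
    {reg : G → ℂ} (hreg1 : reg 1 = Nat.card G) (hreg2 : ∀ g, g ≠ 1 → reg g = 0)
    (hord : ∀ f, IsL T b reg f → meromorphicOrderAt f m ≤ 2)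
    {n : ℕ} (ρ : G →* Matrix (Fin n) (Fin n) ℚ) :
    ∃ (f : ℂ → ℂ) (Ω : ℂ), IsL T b (fun g => (((ρ g).trace : ℚ) : ℂ)) f ∧
      IsPer w c r P Q (fun g => (((ρ g).trace : ℚ) : ℂ)) Ω ∧
      (0 ≤ meromorphicOrderAt f m → ∃ q : ℚ, Tendsto f (𝓝[≠] m) (𝓝 (q * Ω))) := by
  classical
  obtain ⟨τ₀⟩ : Nonempty (E →+* ℂ) := inferInstance
  have hirr : ∀ χ ∈ Irr G, ∃ f, IsL T b χ f := fun χ hχ =>
    exists_L hζ τ₀ hcon (AddSubgroup.subset_closure hχ)
  choose! ℓ hℓ using hirr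
  have hper : ∀ χ ∈ Irr G, ∃ Ω, IsPer w c r P Q χ Ω := fun χ hχ =>
    IsPer.exist (irr_isChar hχ) hc
  choose! pe hpe using hper
  have hprod : ∀ mm : (G → ℂ) → ℕ, IsL T b (∑ χ ∈ irrF G, mm χ • χ)
      (fun s => ∏ᶠ χ ∈ Irr G, ℓ χ s ^ mm χ) := by
    intro mm
    have h1 := IsL.prod (T := T) (b := b) (irrF G) (χ := fun χ => mm χ • χ)
      (f := fun χ s => ℓ χ s ^ mm χ) fun χ hχ => (hℓ χ (mem_irrF.mp hχ)).pow (mm χ)
    convert h1 using 2 with s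
    exact finprod_irr (fun χ => ℓ χ s ^ mm χ)
  have hpprod : ∀ mm : (G → ℂ) → ℕ, IsPer w c r P Q (∑ χ ∈ irrF G, mm χ • χ)
      (∏ᶠ χ ∈ Irr G, pe χ ^ mm χ) := by
    intro mm
    rw [finprod_irr (fun χ => pe χ ^ mm χ)]
    exact IsPer.prod (irrF G) fun χ hχ => (hpe χ (mem_irrF.mp hχ)).pow (mm χ)
  have hL : ∀ χ ∈ Irr G, MeromorphicAt (ℓ χ) m ∧ meromorphicOrderAt (ℓ χ) m ≠ ⊤ :=
    fun χ hχ => ⟨(hℓ χ hχ).1 m, (hℓ χ hχ).ne_top m⟩
  have hP' : ∀ (_ : E →+* ℂ), ∀ χ ∈ Irr G, pe χ ≠ 0 := fun _ χ hχ => (hpe χ hχ).ne hP hQ hw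
  have hmon : ∀ (U : Subgroup G) (ψ : U →* Eˣ),
      Deligne (fun _ => ℓ) (fun _ => pe) m (ind U (fun u => ((ψ u : Eˣ) : E))) := by
    intro U ψ
    obtain ⟨e, he⟩ := hdel U ψ
    refine ⟨e, fun τ mm hmm => ?_⟩
    have h1 := decomp_sum hmm
    have h2 := hprod mm
    have h3 := hpprod mm
    rw [← h1] at h2 h3
    exact he τ _ _ h2 h3
  -- degrees
  have hdeg : ∀ χ ∈ Irr G, ∃ d : ℕ, χ 1 = d := by
    intro χ hχ
    obtain ⟨k, ρ', -, rfl⟩ := hχ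
    exact ⟨Module.finrank ℂ (Fin k → ℂ), by rw [Representation.char_one]⟩
  choose! deg hdeg using hdeg
  have hreg : reg = ∑ χ ∈ irrF G, deg χ • χ := by
    have : Fintype G := Fintype.ofFinite G
    apply decomp_sum
    apply IsDecomp.of_pr
    · intro g x
      by_cases hg : g = 1
      · rw [hg]; simp
      · rw [hreg2 g hg, hreg2]
        intro h
        apply hg
        have := congrArg (fun y => x⁻¹ * y * x) h
        simpa [mul_assoc] using this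
    · intro χ hχ
      rw [pr_eq, Finset.sum_eq_single 1]
      · rw [hreg1, inv_one, hdeg χ hχ, ← mul_assoc, inv_mul_cancel₀ card_ne, one_mul]
      · intro g _ hg
        rw [hreg2 g hg, zero_mul]
      · intro h
        exact absurd (Finset.mem_univ _) h
  have hz : meromorphicOrderAt (fun s => ∏ᶠ χ ∈ Irr G, ℓ χ s ^ deg χ) m ≤ 2 := by
    apply hord
    rw [hreg]
    exact hprod deg
  -- the representation
  let ρ' : Representation ℚ G (Fin n → ℚ) :=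
    { toFun := fun g => Matrix.toLin' (ρ g)
      map_one' := by rw [map_one, Matrix.toLin'_one]; rfl
      map_mul' := fun a b => by rw [map_mul, Matrix.toLin'_mul]; rfl }
  have hρ' : ∀ g, ρ'.character g = (ρ g).trace := fun g => Matrix.trace_toLin'_eq _
  have hcch : cch ρ' = fun g => (((ρ g).trace : ℚ) : ℂ) := by
    funext g
    rw [cch, hρ']
  have hmem := cch_mem ρ'
  have hmult : ∀ χ ∈ Irr G, ∃ k : ℕ, pr (cch ρ') χ = k := by
    intro χ hχ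
    refine nat_closure (fun η hη => ?_) hmem
    by_cases he : η = χ
    · exact ⟨1, by rw [he, pr_self hχ]; simp⟩
    · exact ⟨0, by rw [pr_ne hη hχ he]; simp⟩
  choose! mm hmm using hmult
  have hcls : ∀ g x : G, cch ρ' (x * g * x⁻¹) = cch ρ' g := fun g x => by
    rw [cch, cch, Representation.char_conj]
  have hdec : IsDecomp (cch ρ') mm := IsDecomp.of_pr hcls hmm
  have hsum := decomp_sum hdec
  have h2 := hprod mm
  have h3 := hpprod mm
  rw [← hsum, hcch] at h2 h3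
  refine ⟨_, _, h2, h3, fun hpole => ?_⟩
  exact main_rat' hζ hL hP' hmon hdeg hz ρ' hdec hpole (u := 1) fun τ => by rw [map_one, one_mul]

end Run7.h488.DT
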