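import Mathlib
import Pool.Agent.Run7.h488.DT.Per

/-!
# Resolvents of a normal basis
-/

set_option autoImplicit false

namespace Run7.h488.DT

variable {N : Type} [Field N] [NumberField N] [IsGalois ℚ N]

theorem det_ne (φ : N →+* ℂ) {x : N} (hx : LinearIndependent ℚ fun g : N ≃ₐ[ℚ] N => g x) (n : ℕ)
    (ρ : (N ≃ₐ[ℚ] N) →* Matrix (Fin n) (Fin n) ℂ) : (rs (fun g => φ (g x)) ρ).det ≠ 0 := by
  classical
  let B := basisOfLinearIndependentOfCardEqFinrank hx (by
    rw [← Nat.card_eq_fintype_card]; exact IsGalois.card_aut_eq_finrank ℚ N)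
  have hB : ∀ g, B g = g x := fun g => by simp [B]
  let M : Matrix (N ≃ₐ[ℚ] N) (N ≃ₐ[ℚ] N) ℂ := fun k h => φ (k (h⁻¹ x))
  have hM : M.det ≠ 0 := by
    intro h0
    obtain ⟨v, hv, hv0⟩ := Matrix.exists_vecMul_eq_zero_iff.mpr h0
    apply hv
    have h1 : ∀ y : N, ∑ k : N ≃ₐ[ℚ] N, v k * φ (k y) = 0 := by
      have h2 : ∀ h : N ≃ₐ[ℚ] N, ∑ k : N ≃ₐ[ℚ] N, v k * φ (k (h x)) = 0 := by
        intro h
        have h3 := congrFun hv0 h⁻¹
        rw [Matrix.vecMul, Pi.zero_apply] at h3
        simp only [dotProduct, M, inv_inv] at h3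
        exact h3
      intro y
      have h4 := B.sum_repr y
      rw [← h4]
      have h5 : ∀ k : N ≃ₐ[ℚ] N, v k * φ (k (∑ h, B.repr y h • B h))
          = ∑ h, ((B.repr y h : ℚ) : ℂ) * (v k * φ (k (h x))) := by
        intro k
        rw [map_sum, map_sum, Finset.mul_sum]
        refine Finset.sum_congr rfl fun h _ => ?_
        rw [hB, Rat.smul_def, map_mul, map_mul, map_ratCast, map_ratCast]
        ring
      rw [Finset.sum_congr rfl (fun k _ => h5 k), Finset.sum_comm]
      refine Finset.sum_eq_zero fun h _ => ?_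
      rw [← Finset.mul_sum, h2, mul_zero]
    -- independence of characters
    let f : (N ≃ₐ[ℚ] N) → (N →* ℂ) := fun k => ((φ.comp (k : N →+* N)) : N →+* ℂ).toMonoidHom
    have hf : Function.Injective f := by
      intro k k' h
      ext y
      apply φ.injective
      exact DFunLike.congr_fun h y
    have h6 := (linearIndependent_monoidHom N ℂ).comp f hf
    rw [Fintype.linearIndependent_iff] at h6
    funext k
    refine h6 v ?_ k
    funext y
    rw [Finset.sum_apply]
    exact h1 y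
  have hMu : IsUnit M.det := isUnit_iff_ne_zero.mpr hM
  let v : (N ≃ₐ[ℚ] N) → ℂ := M⁻¹.mulVec (Pi.single 1 1)
  have hv : M.mulVec v = Pi.single 1 1 := by
    rw [Matrix.mulVec_mulVec, Matrix.mul_nonsing_inv _ hMu, Matrix.one_mulVec]
  have h1 : rs (fun g => φ (g x)) ρ * rs v ρ = 1 := by
    rw [rs_mul]
    have h2 : cv (fun g => φ (g x)) v = Pi.single 1 1 := by
      funext k
      rw [← hv, cv, finsum_eq_sum_of_fintype, Matrix.mulVec, dotProduct]
      rw [← Equiv.sum_comp ((Equiv.inv (N ≃ₐ[ℚ] N)).trans (Equiv.mulLeft k))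
        (fun g => φ (g x) * v (g⁻¹ * k))]
      refine Finset.sum_congr rfl fun h _ => ?_
      change φ ((k * h⁻¹) x) * v ((k * h⁻¹)⁻¹ * k) = φ (k (h⁻¹ x)) * v h
      rw [mul_inv_rev, inv_inv, inv_mul_cancel_right]
      rfl
    rw [h2, rs, finsum_eq_sum_of_fintype, Finset.sum_eq_single 1]
    · rw [Pi.single_eq_same, one_smul, map_one]
    · intro k _ hk
      rw [Pi.single_eq_of_ne hk, zero_smul]
    · intro h
      exact absurd (Finset.mem_univ _) h
  intro h0
  have h2 := congrArg Matrix.det h1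
  rw [Matrix.det_mul] at h2
  rw [h0, zero_mul, Matrix.det_one] at h2
  exact zero_ne_one h2

end Run7.h488.DT
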